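import Pool.Agent.H56.BoardCore

/-!
Comparison of free and bad windows, and the forcing induction.
-/

namespace Pool.H56.Board

variable {p q : ℕ}

namespace Sys

/-- `G` along an antidiagonal. -/
theorem lt_of_G_lt (S : Sys p q) (hS : S.SP) {r s r' s' : ℤ} (hs : r + s = r' + s')
    (h : S.G r s < S.G r' s') : r < r' := by
  by_contra hc
  have := S.G_anti hS (r := r') (s := s') (r' := r) (s' := s) (by omega) (by omega)
  omega

theorem lt_of_H_lt (S : Sys p q) (hF : S.FQ) {r s r' s' : ℤ} (hs : r - s = r' - s')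
    (h : S.H r s < S.H r' s') : r' < r := by
  by_contra hc
  have := S.H_diag_F hF (r := r) (s := s) (r' := r') (s' := s') (by omega) (by omega)
  omega

/-- same `u`-level, bad window to the north-west, free window -/
theorem u_bad_free (S : Sys p q) (hS : S.SP) (hF : S.FQ) {a b a' b' : ℤ} {N M N' M' : ℕ}
    (hb : S.Bad a' b' N' M') (hf : S.Free a b N M) (ha : a' < a) (hab : a' + b' = a + b) :
    N' + 1 ≤ N := by
  obtain ⟨b1, b2, b3, b4⟩ := hb
  obtain ⟨f1, f2⟩ := hf
  by_contra hc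
  have h1 : a + M < a' + M' + 1 :=
    S.lt_of_G_lt hS (s := b + q - M) (s' := b' + q - M' - 1) (by omega) (by omega)
  have h2 : S.H (a' + N') (b' + q + N') ≤ S.H (a' + N) (b' + q + N) :=
    S.H_diag_F hF (by omega) (by ring)
  have h3 : S.H (a' + N) (b' + q + N) ≤ S.H (a + N) (b + q + N) :=
    S.H_mono (by omega) (by omega)
  omega

/-- same `u`-level, bad window to the south-east, free window -/
theorem u_free_bad (S : Sys p q) (hS : S.SP) (hF : S.FQ) {a b a' b' : ℤ} {N M N' M' : ℕ}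
    (hb : S.Bad a' b' N' M') (hf : S.Free a b N M) (ha : a < a') (hab : a' + b' = a + b) :
    N ≤ N' := by
  obtain ⟨b1, b2, b3, b4⟩ := hb
  obtain ⟨f1, f2⟩ := hf
  by_contra hc
  have h1 : a' + M' < a + M :=
    S.lt_of_G_lt hS (s := b' + q - M') (s' := b + q - M) (by omega) (by omega)
  have h2 : S.H (a + N) (b + q + N) ≤ S.H (a + N' + 1) (b + q + N' + 1) :=
    S.H_diag_F hF (by omega) (by ring)
  have h3 : S.H (a + N' + 1) (b + q + N' + 1) ≤ S.H (a' + N' + 1) (b' + q + N' + 1) :=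
    S.H_mono (by omega) (by omega)
  omega

/-- same `u`-level, two bad windows -/
theorem u_bad_bad (S : Sys p q) (hS : S.SP) (hF : S.FQ) {a b a' b' : ℤ} {N M N' M' : ℕ}
    (hb : S.Bad a' b' N' M') (hf : S.Bad a b N M) (ha : a' < a) (hab : a' + b' = a + b) :
    N' + 1 ≤ N := by
  obtain ⟨b1, b2, b3, b4⟩ := hb
  obtain ⟨f1, f2, f3, f4⟩ := hf
  by_contra hc
  have h1 : a + M < a' + M' + 1 :=
    S.lt_of_G_lt hS (s := b + q - M) (s' := b' + q - M' - 1) (by omega) (by omega)
  rcases Nat.lt_or_ge N N' with hlt | hge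
  · have h2 : S.H (a' + N') (b' + q + N') ≤ S.H (a' + N + 1) (b' + q + N + 1) :=
      S.H_diag_F hF (by omega) (by ring)
    have h3 : S.H (a' + N + 1) (b' + q + N + 1) ≤ S.H (a + N + 1) (b + q + N + 1) :=
      S.H_mono (by omega) (by omega)
    omega
  · obtain rfl : N = N' := by omega
    -- the least index at `(a + N + 1, b + q + N + 1)`
    have hsp := S.H_spec (a + N + 1) (b + q + N + 1)
    set Ms := S.H (a + N + 1) (b + q + N + 1) with hMs
    obtain ⟨d, hd⟩ : ∃ d : ℕ, a = a' + (d + 1) := by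
      obtain ⟨e, he⟩ := Int.le.dest (show a' + 1 ≤ a by omega)
      exact ⟨e, by omega⟩
    have hmin := S.H_min (r := a' + N) (s := b' + q + N) (M := Ms + d) (by omega)
    have hmono : S.Q (a' + N + (Ms + d : ℕ) + 1) (b' + q + N - (Ms + d : ℕ)) ≤
        S.Q (a + N + 1 + Ms + 1) (b + q + N + 1 - Ms) := by
      apply S.Q_mono
      · push_cast; omega
      · push_cast; omega
    omega

/-- same `w`-level, bad window to the north-east, free window -/
theorem w_free_bad (S : Sys p q) (hS : S.SP) (hF : S.FQ) {a b a' b' : ℤ} {N M N' M' : ℕ}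
    (hb : S.Bad a' b' N' M') (hf : S.Free a b N M) (ha : a < a') (hab : a' - b' = a - b) :
    M' + 1 ≤ M := by
  obtain ⟨b1, b2, b3, b4⟩ := hb
  obtain ⟨f1, f2⟩ := hf
  by_contra hc
  have h1 : a' + N' < a + N :=
    S.lt_of_H_lt hF (s := b + q + N) (s' := b' + q + N') (by omega) (by omega)
  have h2 : S.G (a + M) (b + q - M) ≤ S.G (a + M') (b + q - M') :=
    S.G_anti hS (by omega) (by ring)
  have h3 : S.G (a + M') (b + q - M') ≤ S.G (a' + M') (b' + q - M') :=
    S.G_mono (by omega) (by omega)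
  omega

/-- same `w`-level, bad window to the south-west, free window -/
theorem w_bad_free (S : Sys p q) (hS : S.SP) (hF : S.FQ) {a b a' b' : ℤ} {N M N' M' : ℕ}
    (hb : S.Bad a' b' N' M') (hf : S.Free a b N M) (ha : a' < a) (hab : a' - b' = a - b) :
    M ≤ M' := by
  obtain ⟨b1, b2, b3, b4⟩ := hb
  obtain ⟨f1, f2⟩ := hf
  by_contra hc
  have h1 : a + N < a' + N' + 1 :=
    S.lt_of_H_lt hF (s := b' + q + N' + 1) (s' := b + q + N) (by omega) (by omega)
  have h2 : S.G (a + M' + 1) (b + q - M' - 1) ≤ S.G (a + M) (b + q - M) :=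
    S.G_anti hS (by omega) (by ring)
  have h3 : S.G (a' + M' + 1) (b' + q - M' - 1) ≤ S.G (a + M' + 1) (b + q - M' - 1) :=
    S.G_mono (by omega) (by omega)
  omega

/-- same `w`-level, two bad windows -/
theorem w_bad_bad (S : Sys p q) (hS : S.SP) (hF : S.FQ) {a b a' b' : ℤ} {N M N' M' : ℕ}
    (hb : S.Bad a' b' N' M') (hf : S.Bad a b N M) (ha : a < a') (hab : a' - b' = a - b) :
    M' + 1 ≤ M := by
  obtain ⟨b1, b2, b3, b4⟩ := hb
  obtain ⟨f1, f2, f3, f4⟩ := hf
  by_contra hc
  have h1 : a' + N' < a + N + 1 :=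
    S.lt_of_H_lt hF (s := b + q + N + 1) (s' := b' + q + N') (by omega) (by omega)
  rcases Nat.lt_or_ge M M' with hlt | hge
  · have h2 : S.G (a + M + 1) (b + q - M - 1) ≤ S.G (a + M') (b + q - M') :=
      S.G_anti hS (by omega) (by ring)
    have h3 : S.G (a + M') (b + q - M') ≤ S.G (a' + M') (b' + q - M') :=
      S.G_mono (by omega) (by omega)
    omega
  · obtain rfl : M = M' := by omega
    have hsp := S.G_spec (a' + M) (b' + q - M)
    set Ns := S.G (a' + M) (b' + q - M) with hNs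
    obtain ⟨d, hd⟩ : ∃ d : ℕ, a' = a + (d + 1) := by
      obtain ⟨e, he⟩ := Int.le.dest (show a + 1 ≤ a' by omega)
      exact ⟨e, by omega⟩
    have hmin := S.G_min (r := a + M + 1) (s := b + q - M - 1) (N := Ns + d) (by omega)
    have hmono : S.P (a + M + 1 + (Ns + d : ℕ) + 1) (b + q - M - 1 + (Ns + d : ℕ) + 1) ≤
        S.P (a' + M + Ns + 1) (b' + q - M + Ns + 1) := by
      apply S.P_mono
      · push_cast; omega
      · push_cast; omega
    omega

/-! ### Chains of bad windows -/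

/-- the window `(a, b)` is bad -/
def IsBad (S : Sys p q) (a b : ℤ) : Prop := ∃ N M, S.Bad a b N M

theorem Bad.bounds {S : Sys p q} {a b : ℤ} {N M : ℕ} (h : S.Bad a b N M) :
    N + 1 ≤ p ∧ M + 1 ≤ q := by
  obtain ⟨h1, h2, h3, h4⟩ := h
  exact ⟨h2.trans (S.G_le_p _ _), h3.trans (S.H_le_q _ _)⟩

theorem chain_NW_bad (S : Sys p q) (hS : S.SP) (hF : S.FQ) (n : ℕ) :
    ∀ (a b : ℤ) (N M : ℕ), S.Bad a b N M →
      (∀ j : ℕ, 1 ≤ j → j ≤ n → S.IsBad (a - j) (b + j)) → n ≤ N := by
  induction n with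
  | zero => intros; omega
  | succ n ih =>
    intro a b N M hb hj
    obtain ⟨N', M', hb'⟩ := hj 1 le_rfl (by omega)
    have h1 := ih (a - (1 : ℕ)) (b + (1 : ℕ)) N' M' hb' (fun j h1 h2 => by
      have := hj (j + 1) (by omega) (by omega)
      rw [show a - (1 : ℕ) - (j : ℤ) = a - ((j + 1 : ℕ) : ℤ) by push_cast; ring,
        show b + (1 : ℕ) + (j : ℤ) = b + ((j + 1 : ℕ) : ℤ) by push_cast; ring]
      exact this)
    have h2 := S.u_bad_bad hS hF hb' hb (by push_cast; omega) (by ring)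
    omega

theorem chain_NW (S : Sys p q) (hS : S.SP) (hF : S.FQ) {n : ℕ} {a b : ℤ} {N M : ℕ}
    (hf : S.Free a b N M) (hj : ∀ j : ℕ, 1 ≤ j → j ≤ n → S.IsBad (a - j) (b + j)) : n ≤ N := by
  rcases Nat.eq_zero_or_pos n with rfl | hn
  · omega
  · obtain ⟨N', M', hb'⟩ := hj 1 le_rfl (by omega)
    have h1 := S.chain_NW_bad hS hF (n - 1) (a - (1 : ℕ)) (b + (1 : ℕ)) N' M' hb'
      (fun j h1 h2 => by
        have := hj (j + 1) (by omega) (by omega)
        rw [show a - (1 : ℕ) - (j : ℤ) = a - ((j + 1 : ℕ) : ℤ) by push_cast; ring,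
          show b + (1 : ℕ) + (j : ℤ) = b + ((j + 1 : ℕ) : ℤ) by push_cast; ring]
        exact this)
    have h2 := S.u_bad_free hS hF hb' hf (by push_cast; omega) (by ring)
    omega

theorem chain_SE_bad (S : Sys p q) (hS : S.SP) (hF : S.FQ) (n : ℕ) :
    ∀ (a b : ℤ) (N M : ℕ), S.Bad a b N M →
      (∀ j : ℕ, 1 ≤ j → j ≤ n → S.IsBad (a + j) (b - j)) → N + 1 + n ≤ p := by
  induction n with
  | zero => intro a b N M hb _; exact hb.bounds.1
  | succ n ih =>
    intro a b N M hb hj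
    obtain ⟨N', M', hb'⟩ := hj 1 le_rfl (by omega)
    have h1 := ih (a + (1 : ℕ)) (b - (1 : ℕ)) N' M' hb' (fun j h1 h2 => by
      have := hj (j + 1) (by omega) (by omega)
      rw [show a + (1 : ℕ) + (j : ℤ) = a + ((j + 1 : ℕ) : ℤ) by push_cast; ring,
        show b - (1 : ℕ) - (j : ℤ) = b - ((j + 1 : ℕ) : ℤ) by push_cast; ring]
      exact this)
    have h2 := S.u_bad_bad hS hF hb hb' (by push_cast; omega) (by ring)
    omega

theorem chain_SE (S : Sys p q) (hS : S.SP) (hF : S.FQ) {n : ℕ} {a b : ℤ} {N M : ℕ}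
    (hf : S.Free a b N M) (hj : ∀ j : ℕ, 1 ≤ j → j ≤ n → S.IsBad (a + j) (b - j)) :
    N + n ≤ p := by
  rcases Nat.eq_zero_or_pos n with rfl | hn
  · exact hf.le.1
  · obtain ⟨N', M', hb'⟩ := hj 1 le_rfl (by omega)
    have h1 := S.chain_SE_bad hS hF (n - 1) (a + (1 : ℕ)) (b - (1 : ℕ)) N' M' hb'
      (fun j h1 h2 => by
        have := hj (j + 1) (by omega) (by omega)
        rw [show a + (1 : ℕ) + (j : ℤ) = a + ((j + 1 : ℕ) : ℤ) by push_cast; ring,
          show b - (1 : ℕ) - (j : ℤ) = b - ((j + 1 : ℕ) : ℤ) by push_cast; ring]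
        exact this)
    have h2 := S.u_free_bad hS hF hb' hf (by push_cast; omega) (by ring)
    omega

theorem chain_NE_bad (S : Sys p q) (hS : S.SP) (hF : S.FQ) (n : ℕ) :
    ∀ (a b : ℤ) (N M : ℕ), S.Bad a b N M →
      (∀ j : ℕ, 1 ≤ j → j ≤ n → S.IsBad (a + j) (b + j)) → n ≤ M := by
  induction n with
  | zero => intros; omega
  | succ n ih =>
    intro a b N M hb hj
    obtain ⟨N', M', hb'⟩ := hj 1 le_rfl (by omega)
    have h1 := ih (a + (1 : ℕ)) (b + (1 : ℕ)) N' M' hb' (fun j h1 h2 => by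
      have := hj (j + 1) (by omega) (by omega)
      rw [show a + (1 : ℕ) + (j : ℤ) = a + ((j + 1 : ℕ) : ℤ) by push_cast; ring,
        show b + (1 : ℕ) + (j : ℤ) = b + ((j + 1 : ℕ) : ℤ) by push_cast; ring]
      exact this)
    have h2 := S.w_bad_bad hS hF hb' hb (by push_cast; omega) (by ring)
    omega

theorem chain_NE (S : Sys p q) (hS : S.SP) (hF : S.FQ) {n : ℕ} {a b : ℤ} {N M : ℕ}
    (hf : S.Free a b N M) (hj : ∀ j : ℕ, 1 ≤ j → j ≤ n → S.IsBad (a + j) (b + j)) : n ≤ M := by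
  rcases Nat.eq_zero_or_pos n with rfl | hn
  · omega
  · obtain ⟨N', M', hb'⟩ := hj 1 le_rfl (by omega)
    have h1 := S.chain_NE_bad hS hF (n - 1) (a + (1 : ℕ)) (b + (1 : ℕ)) N' M' hb'
      (fun j h1 h2 => by
        have := hj (j + 1) (by omega) (by omega)
        rw [show a + (1 : ℕ) + (j : ℤ) = a + ((j + 1 : ℕ) : ℤ) by push_cast; ring,
          show b + (1 : ℕ) + (j : ℤ) = b + ((j + 1 : ℕ) : ℤ) by push_cast; ring]
        exact this)
    have h2 := S.w_free_bad hS hF hb' hf (by push_cast; omega) (by ring)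
    omega

theorem chain_SW_bad (S : Sys p q) (hS : S.SP) (hF : S.FQ) (n : ℕ) :
    ∀ (a b : ℤ) (N M : ℕ), S.Bad a b N M →
      (∀ j : ℕ, 1 ≤ j → j ≤ n → S.IsBad (a - j) (b - j)) → M + 1 + n ≤ q := by
  induction n with
  | zero => intro a b N M hb _; exact hb.bounds.2
  | succ n ih =>
    intro a b N M hb hj
    obtain ⟨N', M', hb'⟩ := hj 1 le_rfl (by omega)
    have h1 := ih (a - (1 : ℕ)) (b - (1 : ℕ)) N' M' hb' (fun j h1 h2 => by
      have := hj (j + 1) (by omega) (by omega)
      rw [show a - (1 : ℕ) - (j : ℤ) = a - ((j + 1 : ℕ) : ℤ) by push_cast; ring,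
        show b - (1 : ℕ) - (j : ℤ) = b - ((j + 1 : ℕ) : ℤ) by push_cast; ring]
      exact this)
    have h2 := S.w_bad_bad hS hF hb hb' (by push_cast; omega) (by ring)
    omega

theorem chain_SW (S : Sys p q) (hS : S.SP) (hF : S.FQ) {n : ℕ} {a b : ℤ} {N M : ℕ}
    (hf : S.Free a b N M) (hj : ∀ j : ℕ, 1 ≤ j → j ≤ n → S.IsBad (a - j) (b - j)) :
    M + n ≤ q := by
  rcases Nat.eq_zero_or_pos n with rfl | hn
  · exact hf.le.2
  · obtain ⟨N', M', hb'⟩ := hj 1 le_rfl (by omega)
    have h1 := S.chain_SW_bad hS hF (n - 1) (a - (1 : ℕ)) (b - (1 : ℕ)) N' M' hb'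
      (fun j h1 h2 => by
        have := hj (j + 1) (by omega) (by omega)
        rw [show a - (1 : ℕ) - (j : ℤ) = a - ((j + 1 : ℕ) : ℤ) by push_cast; ring,
          show b - (1 : ℕ) - (j : ℤ) = b - ((j + 1 : ℕ) : ℤ) by push_cast; ring]
        exact this)
    have h2 := S.w_bad_free hS hF hb' hf (by push_cast; omega) (by ring)
    omega

/-- forcing step: no free cell inside the board `[0, p + q + 1]²` -/
theorem forced (S : Sys p q) (hS : S.SP) (hF : S.FQ)
    (hcov : ∀ x y : ℤ, 0 ≤ x → x ≤ p + q + 1 → 0 ≤ y → y ≤ p + q + 1 → ¬ S.Missed x y)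
    {a b : ℤ} {n1 n2 m1 m2 : ℕ}
    (h1 : ∀ j : ℕ, 1 ≤ j → j ≤ n1 → S.IsBad (a - j) (b + j))
    (h2 : ∀ j : ℕ, 1 ≤ j → j ≤ n2 → S.IsBad (a + j) (b - j))
    (h3 : ∀ j : ℕ, 1 ≤ j → j ≤ m1 → S.IsBad (a + j) (b + j))
    (h4 : ∀ j : ℕ, 1 ≤ j → j ≤ m2 → S.IsBad (a - j) (b - j))
    (c1 : 0 ≤ a + n1 + m1) (c2 : a - n2 - m2 ≤ 1)
    (c3 : 0 ≤ b + n1 + m2) (c4 : b - n2 - m1 ≤ 1) : S.IsBad a b := by
  rcases S.free_or_bad hS hF a b with ⟨N, M, hf⟩ | h
  · exfalso
    have e1 := S.chain_NW hS hF hf h1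
    have e2 := S.chain_SE hS hF hf h2
    have e3 := S.chain_NE hS hF hf h3
    have e4 := S.chain_SW hS hF hf h4
    exact hcov _ _ (by omega) (by omega) (by omega) (by omega) hf.missed
  · exact h

/-- the inductive statement -/
def Lev (S : Sys p q) (s : ℕ) : Prop :=
  ∀ a b : ℤ, |a + b - 1| ≤ s → |a - b| ≤ s → S.IsBad a b

theorem lev_succ (S : Sys p q) (hS : S.SP) (hF : S.FQ)
    (hcov : ∀ x y : ℤ, 0 ≤ x → x ≤ p + q + 1 → 0 ≤ y → y ≤ p + q + 1 → ¬ S.Missed x y)
    {s : ℕ} (hs : S.Lev s) : S.Lev (s + 1) := by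
  -- side `w = s + 1`
  have A1 : ∀ t : ℕ, t ≤ s → S.IsBad (t + 1) (t - s) := by
    intro t
    induction t using Nat.strong_induction_on with
    | _ t ih =>
      intro ht
      refine S.forced hS hF hcov (n1 := s) (n2 := 0) (m1 := 0) (m2 := t) ?_ ?_ ?_ ?_
        (by omega) (by omega) (by omega) (by omega)
      · intro j h1 h2
        apply hs
        · rw [abs_le]; constructor <;> omega
        · rw [abs_le]; constructor <;> omega
      · intro j h1 h2; omega
      · intro j h1 h2; omega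
      · intro j h1 h2
        have := ih (t - j) (by omega) (by omega)
        rw [show (t : ℤ) + 1 - j = ((t - j : ℕ) : ℤ) + 1 by omega,
          show (t : ℤ) - s - j = ((t - j : ℕ) : ℤ) - s by omega]
        exact this
  -- side `u = s + 1`
  have A2 : ∀ t : ℕ, t ≤ s → S.IsBad (s + 1 - t) (t + 1) := by
    intro t
    induction t using Nat.strong_induction_on with
    | _ t ih =>
      intro ht
      refine S.forced hS hF hcov (n1 := 0) (n2 := t) (m1 := 0) (m2 := s) ?_ ?_ ?_ ?_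
        (by omega) (by omega) (by omega) (by omega)
      · intro j h1 h2; omega
      · intro j h1 h2
        have := ih (t - j) (by omega) (by omega)
        rw [show (s : ℤ) + 1 - t + j = (s : ℤ) + 1 - ((t - j : ℕ) : ℤ) by omega,
          show (t : ℤ) + 1 - j = ((t - j : ℕ) : ℤ) + 1 by omega]
        exact this
      · intro j h1 h2; omega
      · intro j h1 h2
        apply hs
        · rw [abs_le]; constructor <;> omega
        · rw [abs_le]; constructor <;> omega
  -- side `w = - (s + 1)`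
  have A3 : ∀ t : ℕ, t ≤ s → S.IsBad (-t) (s + 1 - t) := by
    intro t
    induction t using Nat.strong_induction_on with
    | _ t ih =>
      intro ht
      refine S.forced hS hF hcov (n1 := 0) (n2 := s) (m1 := t) (m2 := 0) ?_ ?_ ?_ ?_
        (by omega) (by omega) (by omega) (by omega)
      · intro j h1 h2; omega
      · intro j h1 h2
        apply hs
        · rw [abs_le]; constructor <;> omega
        · rw [abs_le]; constructor <;> omega
      · intro j h1 h2
        have := ih (t - j) (by omega) (by omega)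
        rw [show -(t : ℤ) + j = -((t - j : ℕ) : ℤ) by omega,
          show (s : ℤ) + 1 - t + j = (s : ℤ) + 1 - ((t - j : ℕ) : ℤ) by omega]
        exact this
      · intro j h1 h2; omega
  -- side `u = - (s + 1)`
  have A4 : ∀ t : ℕ, t ≤ s → S.IsBad (t - s) (-t) := by
    intro t
    induction t using Nat.strong_induction_on with
    | _ t ih =>
      intro ht
      refine S.forced hS hF hcov (n1 := t) (n2 := 0) (m1 := s) (m2 := 0) ?_ ?_ ?_ ?_
        (by omega) (by omega) (by omega) (by omega)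
      · intro j h1 h2
        have := ih (t - j) (by omega) (by omega)
        rw [show (t : ℤ) - s - j = ((t - j : ℕ) : ℤ) - s by omega,
          show -(t : ℤ) + j = -((t - j : ℕ) : ℤ) by omega]
        exact this
      · intro j h1 h2; omega
      · intro j h1 h2
        apply hs
        · rw [abs_le]; constructor <;> omega
        · rw [abs_le]; constructor <;> omega
      · intro j h1 h2; omega
  intro a b h1 h2
  rw [abs_le] at h1 h2
  push_cast at h1 h2
  by_cases hw : a - b = s + 1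
  · have := A1 (a - 1).toNat (by omega)
    rw [show (((a - 1).toNat : ℕ) : ℤ) = a - 1 by omega] at this
    convert this using 1 <;> omega
  by_cases hw' : a - b = -(s + 1)
  · have := A3 (-a).toNat (by omega)
    rw [show (((-a).toNat : ℕ) : ℤ) = -a by omega] at this
    convert this using 1 <;> omega
  by_cases hu : a + b - 1 = s + 1
  · have := A2 (b - 1).toNat (by omega)
    rw [show (((b - 1).toNat : ℕ) : ℤ) = b - 1 by omega] at this
    convert this using 1 <;> omega
  by_cases hu' : a + b - 1 = -(s + 1)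
  · have := A4 (-b).toNat (by omega)
    rw [show (((-b).toNat : ℕ) : ℤ) = -b by omega] at this
    convert this using 1 <;> omega
  apply hs
  · rw [abs_le]; constructor <;> omega
  · rw [abs_le]; constructor <;> omega

theorem lev (S : Sys p q) (hS : S.SP) (hF : S.FQ)
    (hcov : ∀ x y : ℤ, 0 ≤ x → x ≤ p + q + 1 → 0 ≤ y → y ≤ p + q + 1 → ¬ S.Missed x y)
    (s : ℕ) : S.Lev s := by
  induction s with
  | zero =>
    intro a b h1 h2
    rw [abs_le] at h1 h2
    push_cast at h1 h2
    omega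
  | succ s ih => exact S.lev_succ hS hF hcov ih

/-- **Core theorem, opposite classes.** -/
theorem exists_missed (S : Sys p q) (hS : S.SP) (hF : S.FQ) :
    ∃ x y : ℤ, 0 ≤ x ∧ x ≤ p + q + 1 ∧ 0 ≤ y ∧ y ≤ p + q + 1 ∧ S.Missed x y := by
  by_contra hc
  push Not at hc
  have hcov : ∀ x y : ℤ, 0 ≤ x → x ≤ p + q + 1 → 0 ≤ y → y ≤ p + q + 1 → ¬ S.Missed x y :=
    fun x y h1 h2 h3 h4 => hc x y h1 h2 h3 h4
  have hl := S.lev hS hF hcov (2 * p + 1)
  obtain ⟨N, M, hb⟩ := hl 0 0 (by rw [abs_le]; constructor <;> (push_cast; omega))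
    (by rw [abs_le]; constructor <;> (push_cast; omega))
  have := S.chain_SE_bad hS hF p 0 0 N M hb (fun j h1 h2 => by
    apply hl
    · rw [abs_le]; constructor <;> (push_cast; omega)
    · rw [abs_le]; constructor <;> (push_cast; omega))
  omega

/-- **Core theorem, other classes**: if every window is free then at least `(n - k)²` cells of
the `n × n` board are missed, `k = p + q`. -/
theorem card_missed (S : Sys p q) (hfree : ∀ a b : ℤ, ∃ N M, S.Free a b N M) (n : ℕ)
    (T : Finset (ℤ × ℤ))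
    (hT : ∀ x y : ℤ, 0 ≤ x → x < n → 0 ≤ y → y < n → S.Missed x y → (x, y) ∈ T) :
    (n - (p + q)) ^ 2 ≤ T.card := by
  classical
  choose fN fM hf using hfree
  let W : Finset (ℕ × ℕ) := Finset.range (n - (p + q)) ×ˢ Finset.range (n - (p + q))
  let φ : ℕ × ℕ → ℤ × ℤ := fun w =>
    ((w.1 : ℤ) + fN w.1 w.2 + fM w.1 w.2, (w.2 : ℤ) + fN w.1 w.2 + (q - fM w.1 w.2))
  have hcard : W.card = (n - (p + q)) ^ 2 := by
    simp [W, sq]
  rw [← hcard]
  apply Finset.card_le_card_of_injOn φ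
  · rintro ⟨a, b⟩ hw
    simp only [W, Finset.coe_product, Finset.coe_range, Set.mem_prod, Set.mem_Iio] at hw
    obtain ⟨h1, h2⟩ := hw
    have hle := (hf a b).le
    exact hT _ _ (by simp only; omega) (by simp only; omega) (by simp only; omega)
      (by simp only; omega) (hf a b).missed
  · rintro ⟨a, b⟩ _ ⟨a', b'⟩ _ heq
    have hx : (a : ℤ) + fN a b + fM a b = a' + fN a' b' + fM a' b' := congrArg Prod.fst heq
    have hy : (b : ℤ) + fN a b + (q - fM a b) = b' + fN a' b' + (q - fM a' b') :=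
      congrArg Prod.snd heq
    have hP1 := (hf a b).P_eq
    have hP2 := (hf a' b').P_eq
    have hQ1 := (hf a b).Q_eq
    have hQ2 := (hf a' b').Q_eq
    rw [hx, hy] at hP1 hQ1
    have e1 : fN a b = fN a' b' := hP1.symm.trans hP2
    have e2 : fM a b = fM a' b' := hQ1.symm.trans hQ2
    rw [e1, e2] at hx hy
    ext <;> simp only <;> omega

end Sys

end Pool.H56.Board
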