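import Mathlib

/-!
Core of the two-class theorem for lines meeting the cells of a board.

`P x y` counts the descending lines that pass below or through the lattice point `(x, y)`,
`Q x y` counts the ascending lines that pass above or through it.
-/

namespace Pool.H56.Board

/-- The two counting functions on the lattice points. -/
structure Sys (p q : ℕ) where
  P : ℤ → ℤ → ℕ
  Q : ℤ → ℤ → ℕ
  Ple : ∀ x y, P x y ≤ p
  Qle : ∀ x y, Q x y ≤ q
  Px : ∀ x y, P x y ≤ P (x + 1) y
  Py : ∀ x y, P x y ≤ P x (y + 1)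
  Qx : ∀ x y, Q x y ≤ Q (x + 1) y
  Qy : ∀ x y, Q x (y + 1) ≤ Q x y

variable {p q : ℕ}

namespace Sys

/-- The cell with lower left corner `(x, y)` is crossed by no line. -/
def Missed (S : Sys p q) (x y : ℤ) : Prop :=
  S.P x y = S.P (x + 1) (y + 1) ∧ S.Q x (y + 1) = S.Q (x + 1) y

/-- Descending lines are steep. -/
def SP (S : Sys p q) : Prop := ∀ x y, S.P x (y + 1) ≤ S.P (x + 1) y

/-- Ascending lines are flat. -/
def FQ (S : Sys p q) : Prop := ∀ x y, S.Q (x + 1) (y + 1) ≤ S.Q x y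

/-- Ascending lines are steep. -/
def SQ (S : Sys p q) : Prop := ∀ x y, S.Q x y ≤ S.Q (x + 1) (y + 1)

theorem exG (S : Sys p q) (r s : ℤ) : ∃ N : ℕ, S.P (r + N + 1) (s + N + 1) ≤ N :=
  ⟨p, S.Ple _ _⟩

theorem exH (S : Sys p q) (r s : ℤ) : ∃ M : ℕ, S.Q (r + M + 1) (s - M) ≤ M :=
  ⟨q, S.Qle _ _⟩

open Classical in
noncomputable def G (S : Sys p q) (r s : ℤ) : ℕ := Nat.find (S.exG r s)

open Classical in
noncomputable def H (S : Sys p q) (r s : ℤ) : ℕ := Nat.find (S.exH r s)

theorem G_spec (S : Sys p q) (r s : ℤ) :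
    S.P (r + S.G r s + 1) (s + S.G r s + 1) ≤ S.G r s := by
  classical
  exact Nat.find_spec (S.exG r s)

theorem G_min (S : Sys p q) {r s : ℤ} {N : ℕ} (h : N < S.G r s) :
    N + 1 ≤ S.P (r + N + 1) (s + N + 1) := by
  classical
  have := Nat.find_min (S.exG r s) h
  omega

theorem G_le (S : Sys p q) {r s : ℤ} {N : ℕ} (h : S.P (r + N + 1) (s + N + 1) ≤ N) :
    S.G r s ≤ N := by
  classical
  exact Nat.find_min' (S.exG r s) h

theorem G_le_p (S : Sys p q) (r s : ℤ) : S.G r s ≤ p := S.G_le (S.Ple _ _)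

theorem H_spec (S : Sys p q) (r s : ℤ) :
    S.Q (r + S.H r s + 1) (s - S.H r s) ≤ S.H r s := by
  classical
  exact Nat.find_spec (S.exH r s)

theorem H_min (S : Sys p q) {r s : ℤ} {M : ℕ} (h : M < S.H r s) :
    M + 1 ≤ S.Q (r + M + 1) (s - M) := by
  classical
  have := Nat.find_min (S.exH r s) h
  omega

theorem H_le (S : Sys p q) {r s : ℤ} {M : ℕ} (h : S.Q (r + M + 1) (s - M) ≤ M) :
    S.H r s ≤ M := by
  classical
  exact Nat.find_min' (S.exH r s) h

theorem H_le_q (S : Sys p q) (r s : ℤ) : S.H r s ≤ q := S.H_le (S.Qle _ _)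

/-- `P` is monotone. -/
theorem P_mono (S : Sys p q) {x y x' y' : ℤ} (hx : x ≤ x') (hy : y ≤ y') :
    S.P x y ≤ S.P x' y' := by
  obtain ⟨m, rfl⟩ := Int.le.dest hx
  obtain ⟨n, rfl⟩ := Int.le.dest hy
  have h1 : ∀ m : ℕ, S.P x y ≤ S.P (x + m) y := by
    intro m
    induction m with
    | zero => simp
    | succ m ih =>
      refine ih.trans ?_
      have := S.Px (x + m) y
      push_cast
      rwa [← add_assoc]
  have h2 : ∀ n : ℕ, S.P (x + m) y ≤ S.P (x + m) (y + n) := by
    intro n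
    induction n with
    | zero => simp
    | succ n ih =>
      refine ih.trans ?_
      have := S.Py (x + m) (y + n)
      push_cast
      rwa [← add_assoc]
  exact (h1 m).trans (h2 n)

/-- `Q` is monotone. -/
theorem Q_mono (S : Sys p q) {x y x' y' : ℤ} (hx : x ≤ x') (hy : y' ≤ y) :
    S.Q x y ≤ S.Q x' y' := by
  obtain ⟨m, rfl⟩ := Int.le.dest hx
  obtain ⟨n, rfl⟩ := Int.le.dest hy
  have h1 : ∀ m : ℕ, S.Q x (y' + n) ≤ S.Q (x + m) (y' + n) := by
    intro m
    induction m with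
    | zero => simp
    | succ m ih =>
      refine ih.trans ?_
      have := S.Qx (x + m) (y' + n)
      push_cast
      rwa [← add_assoc]
  have h2 : ∀ n : ℕ, S.Q (x + m) (y' + n) ≤ S.Q (x + m) y' := by
    intro n
    induction n with
    | zero => simp
    | succ n ih =>
      refine le_trans ?_ ih
      have := S.Qy (x + m) (y' + n)
      push_cast
      rwa [← add_assoc]
  exact (h1 m).trans (h2 n)

theorem G_cell (S : Sys p q) (r s : ℤ) :
    S.P (r + S.G r s) (s + S.G r s) = S.G r s ∧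
      S.P (r + S.G r s + 1) (s + S.G r s + 1) = S.G r s := by
  have h1 := S.G_spec r s
  have h2 : S.P (r + S.G r s) (s + S.G r s) ≤ S.P (r + S.G r s + 1) (s + S.G r s + 1) :=
    S.P_mono (by omega) (by omega)
  have h3 : S.G r s ≤ S.P (r + S.G r s) (s + S.G r s) := by
    rcases Nat.eq_zero_or_pos (S.G r s) with h | h
    · omega
    · obtain ⟨N, hN⟩ : ∃ N, S.G r s = N + 1 := ⟨S.G r s - 1, by omega⟩
      have := S.G_min (r := r) (s := s) (N := N) (by omega)
      rw [hN]
      push_cast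
      rwa [← add_assoc, ← add_assoc]
  omega

theorem H_cell (S : Sys p q) (r s : ℤ) :
    S.Q (r + S.H r s) (s - S.H r s + 1) = S.H r s ∧
      S.Q (r + S.H r s + 1) (s - S.H r s) = S.H r s := by
  have h1 := S.H_spec r s
  have h2 : S.Q (r + S.H r s) (s - S.H r s + 1) ≤ S.Q (r + S.H r s + 1) (s - S.H r s) :=
    S.Q_mono (by omega) (by omega)
  have h3 : S.H r s ≤ S.Q (r + S.H r s) (s - S.H r s + 1) := by
    rcases Nat.eq_zero_or_pos (S.H r s) with h | h
    · omega
    · obtain ⟨M, hM⟩ : ∃ M, S.H r s = M + 1 := ⟨S.H r s - 1, by omega⟩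
      have := S.H_min (r := r) (s := s) (M := M) (by omega)
      rw [hM]
      push_cast
      rw [show r + ((M : ℤ) + 1) = r + M + 1 by ring,
        show s - ((M : ℤ) + 1) + 1 = s - M by ring]
      exact this
  omega

/-- comparison of `G` at two points -/
theorem G_le_G (S : Sys p q) {r s r' s' : ℤ}
    (h : ∀ N : ℕ, S.P (r + N + 1) (s + N + 1) ≤ S.P (r' + N + 1) (s' + N + 1)) :
    S.G r s ≤ S.G r' s' :=
  S.G_le ((h _).trans (S.G_spec r' s'))

theorem H_le_H (S : Sys p q) {r s r' s' : ℤ}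
    (h : ∀ M : ℕ, S.Q (r + M + 1) (s - M) ≤ S.Q (r' + M + 1) (s' - M)) :
    S.H r s ≤ S.H r' s' :=
  S.H_le ((h _).trans (S.H_spec r' s'))

theorem G_mono (S : Sys p q) {r s r' s' : ℤ} (h1 : r ≤ r') (h2 : s ≤ s') :
    S.G r s ≤ S.G r' s' :=
  S.G_le_G fun N => S.P_mono (by omega) (by omega)

theorem H_mono (S : Sys p q) {r s r' s' : ℤ} (h1 : r ≤ r') (h2 : s' ≤ s) :
    S.H r s ≤ S.H r' s' :=
  S.H_le_H fun N => S.Q_mono (by omega) (by omega)

/-- steep descending lines: `G` is monotone in the direction `(1, -1)` -/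
theorem G_anti (S : Sys p q) (hS : S.SP) {r s r' s' : ℤ} (h : r ≤ r') (hs : r + s = r' + s') :
    S.G r s ≤ S.G r' s' := by
  obtain ⟨m, rfl⟩ := Int.le.dest h
  obtain rfl : s' = s - m := by omega
  clear hs h
  induction m with
  | zero => simp
  | succ m ih =>
    refine ih.trans (S.G_le_G fun N => ?_)
    have := hS (r + m + N + 1) (s - m + N)
    push_cast
    rw [show r + ((m : ℤ) + 1) + N + 1 = r + m + N + 1 + 1 by ring,
      show s - ((m : ℤ) + 1) + N + 1 = s - m + N by ring]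
    exact this

theorem H_diag_F (S : Sys p q) (hF : S.FQ) {r s r' s' : ℤ} (h : r ≤ r')
    (hs : r - s = r' - s') : S.H r' s' ≤ S.H r s := by
  obtain ⟨m, rfl⟩ := Int.le.dest h
  obtain rfl : s' = s + m := by omega
  clear hs h
  induction m with
  | zero => simp
  | succ m ih =>
    refine le_trans (S.H_le_H fun N => ?_) ih
    have := hF (r + m + N + 1) (s + m - N)
    push_cast
    rw [show r + ((m : ℤ) + 1) + N + 1 = r + m + N + 1 + 1 by ring,
      show s + ((m : ℤ) + 1) - N = s + m - N + 1 by ring]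
    exact this

theorem H_diag_S (S : Sys p q) (hF : S.SQ) {r s r' s' : ℤ} (h : r ≤ r')
    (hs : r - s = r' - s') : S.H r s ≤ S.H r' s' := by
  obtain ⟨m, rfl⟩ := Int.le.dest h
  obtain rfl : s' = s + m := by omega
  clear hs h
  induction m with
  | zero => simp
  | succ m ih =>
    refine le_trans ih (S.H_le_H fun N => ?_)
    have := hF (r + m + N + 1) (s + m - N)
    push_cast
    rw [show r + ((m : ℤ) + 1) + N + 1 = r + m + N + 1 + 1 by ring,
      show s + ((m : ℤ) + 1) - N = s + m - N + 1 by ring]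
    exact this

/-- The window `(a, b)` contains the missed cell with parameters `N`, `M`. -/
def Free (S : Sys p q) (a b : ℤ) (N M : ℕ) : Prop :=
  S.G (a + M) (b + q - M) = N ∧ S.H (a + N) (b + q + N) = M

/-- The window `(a, b)` is bad with parameters `N`, `M`. -/
def Bad (S : Sys p q) (a b : ℤ) (N M : ℕ) : Prop :=
  S.G (a + M) (b + q - M) ≤ N ∧ N + 1 ≤ S.G (a + M + 1) (b + q - M - 1) ∧
    M + 1 ≤ S.H (a + N) (b + q + N) ∧ S.H (a + N + 1) (b + q + N + 1) ≤ M

theorem Free.missed {S : Sys p q} {a b : ℤ} {N M : ℕ} (h : S.Free a b N M) :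
    S.Missed (a + N + M) (b + N + (q - M)) := by
  obtain ⟨h1, h2⟩ := h
  have g := S.G_cell (a + M) (b + q - M)
  have k := S.H_cell (a + N) (b + q + N)
  rw [h1] at g
  rw [h2] at k
  constructor
  · rw [show a + N + M = a + M + N by ring, show b + N + ((q : ℤ) - M) = b + q - M + N by ring,
      g.1, g.2]
  · rw [show b + N + ((q : ℤ) - M) = b + q + N - M by ring, k.1, k.2]

theorem Free.P_eq {S : Sys p q} {a b : ℤ} {N M : ℕ} (h : S.Free a b N M) :
    S.P (a + N + M) (b + N + (q - M)) = N := by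
  obtain ⟨h1, h2⟩ := h
  have g := S.G_cell (a + M) (b + q - M)
  rw [h1] at g
  rw [show a + N + M = a + M + N by ring, show b + N + ((q : ℤ) - M) = b + q - M + N by ring]
  exact g.1

theorem Free.Q_eq {S : Sys p q} {a b : ℤ} {N M : ℕ} (h : S.Free a b N M) :
    S.Q (a + N + M + 1) (b + N + (q - M)) = M := by
  obtain ⟨h1, h2⟩ := h
  have k := S.H_cell (a + N) (b + q + N)
  rw [h2] at k
  rw [show b + N + ((q : ℤ) - M) = b + q + N - M by ring]
  exact k.2

theorem Free.le {S : Sys p q} {a b : ℤ} {N M : ℕ} (h : S.Free a b N M) : N ≤ p ∧ M ≤ q := by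
  obtain ⟨h1, h2⟩ := h
  exact ⟨h1 ▸ S.G_le_p _ _, h2 ▸ S.H_le_q _ _⟩

/-- If both families are steep, every window is free. -/
theorem free_of_SQ (S : Sys p q) (hS : S.SP) (hQ : S.SQ) (a b : ℤ) :
    ∃ N M, S.Free a b N M := by
  classical
  let φ : ℕ → ℕ := fun M => S.H (a + S.G (a + M) (b + q - M)) (b + q + S.G (a + M) (b + q - M))
  have hmono : ∀ M M' : ℕ, M ≤ M' → φ M ≤ φ M' := by
    intro M M' hM
    have hG : S.G (a + M) (b + q - M) ≤ S.G (a + M') (b + q - M') :=
      S.G_anti hS (by omega) (by ring)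
    exact S.H_diag_S hQ (by omega) (by ring)
  have hex : ∃ M, φ M ≤ M := ⟨q, S.H_le_q _ _⟩
  have h1 := Nat.find_spec hex
  set M := Nat.find hex with hMdef
  have h2 : M ≤ φ M := by
    rcases Nat.eq_zero_or_pos M with h | h
    · omega
    · have h3 := Nat.find_min hex (m := M - 1) (by omega)
      have h4 := hmono (M - 1) M (by omega)
      omega
  exact ⟨S.G (a + M) (b + q - M), M, rfl, le_antisymm h1 h2⟩

/-- If there is no ascending line, every window is free. -/
theorem free_of_q (S : Sys p 0) (a b : ℤ) : ∃ N M, S.Free a b N M :=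
  ⟨S.G (a + (0 : ℕ)) (b + (0 : ℕ) - (0 : ℕ)), 0, rfl, Nat.le_zero.1 (S.H_le_q _ _)⟩

/-- Steep descending and flat ascending lines: every window is free or bad. -/
theorem free_or_bad (S : Sys p q) (hS : S.SP) (hF : S.FQ) (a b : ℤ) :
    (∃ N M, S.Free a b N M) ∨ ∃ N M, S.Bad a b N M := by
  classical
  let γ : ℕ → ℕ := fun M => S.G (a + M) (b + q - M)
  let η : ℕ → ℕ := fun N => S.H (a + N) (b + q + N)
  have hγ : ∀ M M' : ℕ, M ≤ M' → γ M ≤ γ M' := fun M M' h => S.G_anti hS (by omega) (by ring)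
  have hη : ∀ N N' : ℕ, N ≤ N' → η N' ≤ η N := fun N N' h => S.H_diag_F hF (by omega) (by ring)
  have hex : ∃ M, η (γ M) ≤ M := ⟨q, S.H_le_q _ _⟩
  have h1 := Nat.find_spec hex
  set M := Nat.find hex with hMdef
  rcases Nat.lt_or_ge (η (γ M)) M with hlt | hge
  · right
    obtain ⟨M1, hM1⟩ : ∃ M1, M = M1 + 1 := ⟨M - 1, by omega⟩
    have h2 := Nat.find_min hex (m := M1) (by omega)
    have h2' : M1 + 1 ≤ η (γ M1) := by omega
    have h3 : η (γ (M1 + 1)) ≤ M1 := by rw [← hM1]; omega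
    have hex2 : ∃ t, η (γ M1 + t) ≤ M1 := by
      refine ⟨γ (M1 + 1) - γ M1, ?_⟩
      have := hγ M1 (M1 + 1) (by omega)
      rw [show γ M1 + (γ (M1 + 1) - γ M1) = γ (M1 + 1) by omega]
      exact h3
    have h4 := Nat.find_spec hex2
    set t := Nat.find hex2 with ht
    have htpos : 0 < t := by
      rcases Nat.eq_zero_or_pos t with h0 | h0
      · rw [h0] at h4
        simp only [add_zero] at h4
        omega
      · exact h0
    obtain ⟨t1, ht1⟩ : ∃ t1, t = t1 + 1 := ⟨t - 1, by omega⟩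
    have h5 := Nat.find_min hex2 (m := t1) (by omega)
    have h6 : γ M1 + t ≤ γ (M1 + 1) := by
      by_contra hc
      have h7 : ¬ η (γ M1 + (γ (M1 + 1) - γ M1)) ≤ M1 :=
        Nat.find_min hex2 (m := γ (M1 + 1) - γ M1) (by omega)
      have := hγ M1 (M1 + 1) (by omega)
      rw [show γ M1 + (γ (M1 + 1) - γ M1) = γ (M1 + 1) by omega] at h7
      exact h7 h3
    refine ⟨γ M1 + t1, M1, ?_, ?_, ?_, ?_⟩
    · change γ M1 ≤ γ M1 + t1
      omega
    · have : γ (M1 + 1) = S.G (a + M1 + 1) (b + q - M1 - 1) := by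
        change S.G _ _ = S.G _ _
        congr 1 <;> (push_cast; ring)
      rw [← this]
      omega
    · change M1 + 1 ≤ η (γ M1 + t1)
      omega
    · have : η (γ M1 + t) =
          S.H (a + (γ M1 + t1 : ℕ) + 1) (b + q + (γ M1 + t1 : ℕ) + 1) := by
        rw [ht1]
        change S.H _ _ = S.H _ _
        congr 1 <;> (push_cast; ring)
      rw [← this]
      exact h4
  · left
    exact ⟨γ M, M, rfl, le_antisymm h1 hge⟩

end Sys

end Pool.H56.Board
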