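import Pool.Agent.H56.BoardChain

/-!
From lines to the counting functions of `BoardCore`.
-/

namespace Pool.H56.Board

open Finset

/-- The line `a x + b y = c` with `(a, b) ≠ (0, 0)`. -/
structure Line where
  a : ℝ
  b : ℝ
  c : ℝ
  ne : a ≠ 0 ∨ b ≠ 0

/-- The line contains a point of the interior of the cell `[i, i+1] × [j, j+1]`. -/
def Line.Meets (l : Line) (i j : ℕ) : Prop :=
  ∃ x y : ℝ, (i : ℝ) < x ∧ x < i + 1 ∧ (j : ℝ) < y ∧ y < j + 1 ∧ l.a * x + l.b * y = l.c

/-- The reflection of a line in the diagonal `x = y`. -/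
def Line.tr (l : Line) : Line := ⟨l.b, l.a, l.c, l.ne.symm⟩

theorem Line.tr_meets (l : Line) (i j : ℕ) : l.tr.Meets j i ↔ l.Meets i j := by
  constructor
  · rintro ⟨x, y, h1, h2, h3, h4, h5⟩
    exact ⟨y, x, h3, h4, h1, h2, by simp only [Line.tr] at h5; linarith⟩
  · rintro ⟨x, y, h1, h2, h3, h4, h5⟩
    exact ⟨y, x, h3, h4, h1, h2, by simp only [Line.tr]; linarith⟩

theorem Line.norm_pos (l : Line) (h : 0 ≤ l.a * l.b) :
    ∃ γ : ℝ, ∀ i j : ℕ, l.Meets i j →
      |l.a| * i + |l.b| * j < γ ∧ γ < |l.a| * (i + 1) + |l.b| * (j + 1) := by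
  have hpos : ∀ (a b : ℝ) (i j : ℕ) (x y : ℝ), 0 ≤ a → 0 ≤ b → (a ≠ 0 ∨ b ≠ 0) →
      (i : ℝ) < x → x < i + 1 → (j : ℝ) < y → y < j + 1 →
      a * i + b * j < a * x + b * y ∧ a * x + b * y < a * (i + 1) + b * (j + 1) := by
    intro a b i j x y ha hb hne h1 h2 h3 h4
    rcases hne with h | h
    · have ha' : 0 < a := lt_of_le_of_ne ha (Ne.symm h)
      constructor
      · have := mul_lt_mul_of_pos_left h1 ha'
        have := mul_le_mul_of_nonneg_left h3.le hb
        linarith
      · have := mul_lt_mul_of_pos_left h2 ha'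
        have := mul_le_mul_of_nonneg_left h4.le hb
        linarith
    · have hb' : 0 < b := lt_of_le_of_ne hb (Ne.symm h)
      constructor
      · have := mul_lt_mul_of_pos_left h3 hb'
        have := mul_le_mul_of_nonneg_left h1.le ha
        linarith
      · have := mul_lt_mul_of_pos_left h4 hb'
        have := mul_le_mul_of_nonneg_left h2.le ha
        linarith
  rcases mul_nonneg_iff.1 h with ⟨ha, hb⟩ | ⟨ha, hb⟩
  · refine ⟨l.c, ?_⟩
    rintro i j ⟨x, y, h1, h2, h3, h4, h5⟩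
    rw [abs_of_nonneg ha, abs_of_nonneg hb, ← h5]
    exact hpos _ _ i j x y ha hb l.ne h1 h2 h3 h4
  · refine ⟨-l.c, ?_⟩
    rintro i j ⟨x, y, h1, h2, h3, h4, h5⟩
    rw [abs_of_nonpos ha, abs_of_nonpos hb, ← h5]
    have := hpos (-l.a) (-l.b) i j x y (by linarith) (by linarith)
      (by rcases l.ne with h | h
          · left; simpa using h
          · right; simpa using h) h1 h2 h3 h4
    constructor <;> linarith [this.1, this.2]

theorem Line.norm_neg (l : Line) (h : l.a * l.b ≤ 0) :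
    ∃ γ : ℝ, ∀ i j : ℕ, l.Meets i j →
      |l.a| * i - |l.b| * (j + 1) < γ ∧ γ < |l.a| * (i + 1) - |l.b| * j := by
  have hpos : ∀ (a b : ℝ) (i j : ℕ) (x y : ℝ), 0 ≤ a → 0 ≤ b → (a ≠ 0 ∨ b ≠ 0) →
      (i : ℝ) < x → x < i + 1 → (j : ℝ) < y → y < j + 1 →
      a * i - b * (j + 1) < a * x - b * y ∧ a * x - b * y < a * (i + 1) - b * j := by
    intro a b i j x y ha hb hne h1 h2 h3 h4
    rcases hne with h | h
    · have ha' : 0 < a := lt_of_le_of_ne ha (Ne.symm h)
      constructor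
      · have := mul_lt_mul_of_pos_left h1 ha'
        have := mul_le_mul_of_nonneg_left h4.le hb
        linarith
      · have := mul_lt_mul_of_pos_left h2 ha'
        have := mul_le_mul_of_nonneg_left h3.le hb
        linarith
    · have hb' : 0 < b := lt_of_le_of_ne hb (Ne.symm h)
      constructor
      · have := mul_lt_mul_of_pos_left h4 hb'
        have := mul_le_mul_of_nonneg_left h1.le ha
        linarith
      · have := mul_lt_mul_of_pos_left h3 hb'
        have := mul_le_mul_of_nonneg_left h2.le ha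
        linarith
  rcases mul_nonpos_iff.1 h with ⟨ha, hb⟩ | ⟨ha, hb⟩
  · refine ⟨l.c, ?_⟩
    rintro i j ⟨x, y, h1, h2, h3, h4, h5⟩
    rw [abs_of_nonneg ha, abs_of_nonpos hb, ← h5]
    have := hpos l.a (-l.b) i j x y ha (by linarith)
      (by rcases l.ne with h | h
          · left; exact h
          · right; simpa using h) h1 h2 h3 h4
    constructor <;> linarith [this.1, this.2]
  · refine ⟨-l.c, ?_⟩
    rintro i j ⟨x, y, h1, h2, h3, h4, h5⟩
    rw [abs_of_nonpos ha, abs_of_nonneg hb, ← h5]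
    have := hpos (-l.a) l.b i j x y (by linarith) hb
      (by rcases l.ne with h | h
          · left; simpa using h
          · right; exact h) h1 h2 h3 h4
    constructor <;> linarith [this.1, this.2]

section build

variable {k : ℕ} (L : Fin k → Line) (A : Finset (Fin k)) (γ : Fin k → ℝ)

open Classical in
/-- the + lines whose closed upper side contains `(x, y)` -/
noncomputable def pset (x y : ℤ) : Finset (Fin k) :=
  A.filter fun t => γ t ≤ |(L t).a| * (x : ℝ) + |(L t).b| * (y : ℝ)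

open Classical in
/-- the - lines whose closed lower side contains `(x, y)` -/
noncomputable def qset (x y : ℤ) : Finset (Fin k) :=
  Aᶜ.filter fun t => γ t ≤ |(L t).a| * (x : ℝ) - |(L t).b| * (y : ℝ)

theorem pset_mono {x y x' y' : ℤ}
    (h : ∀ t ∈ A, |(L t).a| * (x : ℝ) + |(L t).b| * (y : ℝ) ≤
      |(L t).a| * (x' : ℝ) + |(L t).b| * (y' : ℝ)) : pset L A γ x y ⊆ pset L A γ x' y' := by
  intro t ht
  simp only [pset, mem_filter] at ht ⊢
  exact ⟨ht.1, ht.2.trans (h t ht.1)⟩

theorem qset_mono {x y x' y' : ℤ}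
    (h : ∀ t ∈ Aᶜ, |(L t).a| * (x : ℝ) - |(L t).b| * (y : ℝ) ≤
      |(L t).a| * (x' : ℝ) - |(L t).b| * (y' : ℝ)) : qset L A γ x y ⊆ qset L A γ x' y' := by
  intro t ht
  simp only [qset, mem_filter] at ht ⊢
  exact ⟨ht.1, ht.2.trans (h t ht.1)⟩

/-- The system of counting functions of a family of lines. -/
noncomputable def mkSys : Sys A.card (Aᶜ).card where
  P x y := (pset L A γ x y).card
  Q x y := (qset L A γ x y).card
  Ple x y := card_le_card (filter_subset _ _)
  Qle x y := card_le_card (filter_subset _ _)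
  Px x y := card_le_card (pset_mono L A γ fun t _ => by
    push_cast; nlinarith [abs_nonneg (L t).a])
  Py x y := card_le_card (pset_mono L A γ fun t _ => by
    push_cast; nlinarith [abs_nonneg (L t).b])
  Qx x y := card_le_card (qset_mono L A γ fun t _ => by
    push_cast; nlinarith [abs_nonneg (L t).a])
  Qy x y := card_le_card (qset_mono L A γ fun t _ => by
    push_cast; nlinarith [abs_nonneg (L t).b])

theorem mkSys_SP (h : ∀ t ∈ A, |(L t).b| ≤ |(L t).a|) : (mkSys L A γ).SP := by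
  intro x y
  refine card_le_card (pset_mono L A γ fun t ht => ?_)
  have := h t ht
  push_cast
  linarith

theorem mkSys_FQ (h : ∀ t ∈ Aᶜ, |(L t).a| ≤ |(L t).b|) : (mkSys L A γ).FQ := by
  intro x y
  refine card_le_card (qset_mono L A γ fun t ht => ?_)
  have := h t ht
  push_cast
  linarith

theorem mkSys_SQ (h : ∀ t ∈ Aᶜ, |(L t).b| ≤ |(L t).a|) : (mkSys L A γ).SQ := by
  intro x y
  refine card_le_card (qset_mono L A γ fun t ht => ?_)
  have := h t ht
  push_cast
  linarith

theorem mkSys_missed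
    (hp : ∀ t ∈ A, ∀ i j : ℕ, (L t).Meets i j →
      |(L t).a| * i + |(L t).b| * j < γ t ∧ γ t < |(L t).a| * (i + 1) + |(L t).b| * (j + 1))
    (hq : ∀ t ∈ Aᶜ, ∀ i j : ℕ, (L t).Meets i j →
      |(L t).a| * i - |(L t).b| * (j + 1) < γ t ∧ γ t < |(L t).a| * (i + 1) - |(L t).b| * j)
    (i j : ℕ) (h : (mkSys L A γ).Missed i j) (t : Fin k) : ¬ (L t).Meets i j := by
  intro hm
  obtain ⟨h1, h2⟩ := h
  by_cases ht : t ∈ A
  · have hsub : pset L A γ i j ⊆ pset L A γ (i + 1) (j + 1) :=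
      pset_mono L A γ fun t _ => by
        push_cast; nlinarith [abs_nonneg (L t).a, abs_nonneg (L t).b]
    have heq := eq_of_subset_of_card_le hsub (le_of_eq h1.symm)
    have hpt := hp t ht i j hm
    have : t ∈ pset L A γ (i + 1) (j + 1) := by
      simp only [pset, mem_filter]
      refine ⟨ht, ?_⟩
      push_cast
      exact hpt.2.le
    rw [← heq] at this
    simp only [pset, mem_filter] at this
    have h3 := this.2
    push_cast at h3
    linarith [hpt.1]
  · have ht' : t ∈ Aᶜ := by simpa using ht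
    have hsub : qset L A γ i (j + 1) ⊆ qset L A γ (i + 1) j :=
      qset_mono L A γ fun t _ => by
        push_cast; nlinarith [abs_nonneg (L t).a, abs_nonneg (L t).b]
    have heq := eq_of_subset_of_card_le hsub (le_of_eq h2.symm)
    have hpt := hq t ht' i j hm
    have : t ∈ qset L A γ (i + 1) j := by
      simp only [qset, mem_filter]
      refine ⟨ht', ?_⟩
      push_cast
      exact hpt.2.le
    rw [← heq] at this
    simp only [qset, mem_filter] at this
    have h3 := this.2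
    push_cast at h3
    linarith [hpt.1]

end build

/-- Choice of the normalised right hand sides. -/
theorem exists_gamma {k : ℕ} (L : Fin k → Line) (A : Finset (Fin k))
    (hA : ∀ t ∈ A, 0 ≤ (L t).a * (L t).b) (hB : ∀ t ∈ Aᶜ, (L t).a * (L t).b ≤ 0) :
    ∃ γ : Fin k → ℝ,
      (∀ t ∈ A, ∀ i j : ℕ, (L t).Meets i j →
        |(L t).a| * i + |(L t).b| * j < γ t ∧ γ t < |(L t).a| * (i + 1) + |(L t).b| * (j + 1)) ∧
      (∀ t ∈ Aᶜ, ∀ i j : ℕ, (L t).Meets i j →
        |(L t).a| * i - |(L t).b| * (j + 1) < γ t ∧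
          γ t < |(L t).a| * (i + 1) - |(L t).b| * j) := by
  classical
  have h : ∀ t, ∃ γ : ℝ, (t ∈ A → ∀ i j : ℕ, (L t).Meets i j →
        |(L t).a| * i + |(L t).b| * j < γ ∧ γ < |(L t).a| * (i + 1) + |(L t).b| * (j + 1)) ∧
      (t ∈ Aᶜ → ∀ i j : ℕ, (L t).Meets i j →
        |(L t).a| * i - |(L t).b| * (j + 1) < γ ∧
          γ < |(L t).a| * (i + 1) - |(L t).b| * j) := by
    intro t
    by_cases ht : t ∈ A
    · obtain ⟨γ, hγ⟩ := (L t).norm_pos (hA t ht)
      exact ⟨γ, fun _ => hγ, fun h => absurd ht (by simpa using h)⟩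
    · obtain ⟨γ, hγ⟩ := (L t).norm_neg (hB t (by simpa using ht))
      exact ⟨γ, fun h => absurd h ht, fun _ => hγ⟩
  choose γ h1 h2 using h
  exact ⟨γ, h1, h2⟩

/-- The cells of the `n × n` board that are met by no line of the family. -/
def missedCells (n : ℕ) {k : ℕ} (L : Fin k → Line) : Set (ℕ × ℕ) :=
  {c | c.1 < n ∧ c.2 < n ∧ ∀ t, ¬ (L t).Meets c.1 c.2}

theorem missedCells_finite (n : ℕ) {k : ℕ} (L : Fin k → Line) : (missedCells n L).Finite := by
  apply Set.Finite.subset ((Finset.range n ×ˢ Finset.range n).finite_toSet)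
  rintro ⟨i, j⟩ ⟨h1, h2, _⟩
  simp only [coe_product, coe_range, Set.mem_prod, Set.mem_Iio]
  exact ⟨h1, h2⟩

theorem missedCells_tr (n : ℕ) {k : ℕ} (L : Fin k → Line) :
    (missedCells n fun t => (L t).tr).ncard = (missedCells n L).ncard := by
  have : (missedCells n fun t => (L t).tr) = Prod.swap '' missedCells n L := by
    ext ⟨i, j⟩
    simp only [missedCells, Set.mem_ofPred_eq, Set.mem_image, Prod.exists, Prod.swap_prod_mk,
      Prod.mk.injEq]
    constructor
    · rintro ⟨h1, h2, h3⟩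
      exact ⟨j, i, ⟨h2, h1, fun t ht => h3 t (((L t).tr_meets j i).2 ht)⟩, rfl, rfl⟩
    · rintro ⟨i', j', ⟨h1, h2, h3⟩, rfl, rfl⟩
      exact ⟨h2, h1, fun t ht => h3 t (((L t).tr_meets i' j').1 ht)⟩
  rw [this, Set.ncard_image_of_injective _ Prod.swap_injective]

/-- Opposite classes: steep descending and flat ascending. -/
theorem opp_missed {k : ℕ} (L : Fin k → Line)
    (h : ∀ t, (0 ≤ (L t).a * (L t).b ∧ |(L t).b| ≤ |(L t).a|) ∨
      ((L t).a * (L t).b ≤ 0 ∧ |(L t).a| ≤ |(L t).b|)) :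
    ∃ i j : ℕ, i ≤ k + 1 ∧ j ≤ k + 1 ∧ ∀ t, ¬ (L t).Meets i j := by
  classical
  let A : Finset (Fin k) := univ.filter fun t => 0 ≤ (L t).a * (L t).b ∧ |(L t).b| ≤ |(L t).a|
  have hA : ∀ t ∈ A, 0 ≤ (L t).a * (L t).b ∧ |(L t).b| ≤ |(L t).a| := by
    intro t ht
    exact (mem_filter.1 ht).2
  have hB : ∀ t ∈ Aᶜ, (L t).a * (L t).b ≤ 0 ∧ |(L t).a| ≤ |(L t).b| := by
    intro t ht
    rcases h t with h1 | h1
    · exact absurd (mem_filter.2 ⟨mem_univ t, h1⟩) (mem_compl.1 ht)
    · exact h1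
  obtain ⟨γ, hp, hq⟩ := exists_gamma L A (fun t ht => (hA t ht).1) (fun t ht => (hB t ht).1)
  have hS := mkSys_SP L A γ fun t ht => (hA t ht).2
  have hF := mkSys_FQ L A γ fun t ht => (hB t ht).2
  obtain ⟨x, y, hx0, hx1, hy0, hy1, hm⟩ := (mkSys L A γ).exists_missed hS hF
  have hcard : A.card + (Aᶜ).card = k := by
    have := card_add_card_compl A
    rwa [Fintype.card_fin] at this
  obtain ⟨i, rfl⟩ := Int.eq_ofNat_of_zero_le hx0
  obtain ⟨j, rfl⟩ := Int.eq_ofNat_of_zero_le hy0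
  exact ⟨i, j, by omega, by omega, mkSys_missed L A γ hp hq i j hm⟩

/-- The other pairs of classes. -/
theorem card_of_free {k : ℕ} (L : Fin k → Line) (n : ℕ) (A : Finset (Fin k))
    (hA : ∀ t ∈ A, 0 ≤ (L t).a * (L t).b) (hB : ∀ t ∈ Aᶜ, (L t).a * (L t).b ≤ 0)
    (hfree : ∀ (γ : Fin k → ℝ) (a b : ℤ), ∃ N M, (mkSys L A γ).Free a b N M) :
    (n - k) ^ 2 ≤ (missedCells n L).ncard := by
  classical
  obtain ⟨γ, hp, hq⟩ := exists_gamma L A hA hB
  have hcard : A.card + (Aᶜ).card = k := by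
    have := card_add_card_compl A
    rwa [Fintype.card_fin] at this
  have hfin := missedCells_finite n L
  let T : Finset (ℤ × ℤ) := hfin.toFinset.image fun c => ((c.1 : ℤ), (c.2 : ℤ))
  have h1 := (mkSys L A γ).card_missed (hfree γ) n T (by
    intro x y hx0 hx1 hy0 hy1 hm
    obtain ⟨i, rfl⟩ := Int.eq_ofNat_of_zero_le hx0
    obtain ⟨j, rfl⟩ := Int.eq_ofNat_of_zero_le hy0
    refine mem_image.2 ⟨(i, j), ?_, rfl⟩
    rw [Set.Finite.mem_toFinset]
    exact ⟨by simpa using hx1, by simpa using hy1, mkSys_missed L A γ hp hq i j hm⟩)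
  rw [hcard] at h1
  have h2 : T.card ≤ (missedCells n L).ncard := by
    rw [Set.ncard_eq_toFinset_card _ hfin]
    exact card_image_le
  exact h1.trans h2

/-- all lines descending -/
theorem card_desc {k : ℕ} (L : Fin k → Line) (n : ℕ) (h : ∀ t, 0 ≤ (L t).a * (L t).b) :
    (n - k) ^ 2 ≤ (missedCells n L).ncard := by
  classical
  refine card_of_free L n univ (fun t _ => h t) (fun t ht => by simp at ht) ?_
  intro γ a b
  have hc : ((univ : Finset (Fin k))ᶜ).card = 0 := by simp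
  have h0 : ∀ r s, (mkSys L univ γ).H r s = 0 := fun r s => by
    have := (mkSys L univ γ).H_le_q r s
    omega
  refine ⟨(mkSys L univ γ).G (a + (0 : ℕ)) (b + ((univ : Finset (Fin k))ᶜ).card - (0 : ℕ)), 0,
    rfl, h0 _ _⟩

/-- all lines ascending -/
theorem card_asc {k : ℕ} (L : Fin k → Line) (n : ℕ) (h : ∀ t, (L t).a * (L t).b ≤ 0) :
    (n - k) ^ 2 ≤ (missedCells n L).ncard := by
  classical
  refine card_of_free L n ∅ (fun t ht => by simp at ht) (fun t _ => h t) ?_
  intro γ a b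
  have h0 : ∀ r s, (mkSys L ∅ γ).G r s = 0 := fun r s => by
    have := (mkSys L ∅ γ).G_le_p r s
    simpa using this
  exact ⟨0, (mkSys L ∅ γ).H (a + (0 : ℕ)) (b + ((∅ : Finset (Fin k))ᶜ).card + (0 : ℕ)),
    h0 _ _, rfl⟩

/-- all lines steep -/
theorem card_steep {k : ℕ} (L : Fin k → Line) (n : ℕ) (h : ∀ t, |(L t).b| ≤ |(L t).a|) :
    (n - k) ^ 2 ≤ (missedCells n L).ncard := by
  classical
  refine card_of_free L n (univ.filter fun t => 0 ≤ (L t).a * (L t).b)
    (fun t ht => (mem_filter.1 ht).2) (fun t ht => ?_) ?_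
  · simp only [mem_compl, mem_filter, mem_univ, true_and, not_le] at ht
    exact ht.le
  · intro γ a b
    exact Sys.free_of_SQ _ (mkSys_SP _ _ _ fun t _ => h t) (mkSys_SQ _ _ _ fun t _ => h t) a b

/-- all lines flat -/
theorem card_flat {k : ℕ} (L : Fin k → Line) (n : ℕ) (h : ∀ t, |(L t).a| ≤ |(L t).b|) :
    (n - k) ^ 2 ≤ (missedCells n L).ncard := by
  rw [← missedCells_tr n L]
  exact card_steep _ n fun t => by simpa [Line.tr] using h t

end Pool.H56.Board
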