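import Mathlib
import Pool.Agent.H86.Brouwer

set_option autoImplicit false

open scoped unitInterval Topology

namespace Pool.Agent.H56

/-- Brouwer in the sup norm. -/
lemma exists_zero_pi (n : ℕ) (R : (Fin n → ℝ) → (Fin n → ℝ)) (hR : Continuous R) (M : ℝ)
    (hid : ∀ y, M ≤ ‖y‖ → R y = y) : ∃ y, R y = 0 := by
  set E := EuclideanSpace ℝ (Fin n) with hE
  let e : E ≃L[ℝ] (Fin n → ℝ) := EuclideanSpace.equiv (Fin n) ℝ
  obtain ⟨C, hC0, hC⟩ : ∃ C : ℝ, 0 < C ∧ ∀ x : E, ‖x‖ ≤ C * ‖e x‖ := by
    refine ⟨‖(e.symm : (Fin n → ℝ) →L[ℝ] E)‖ + 1, by positivity, fun x => ?_⟩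
    have h1 := (e.symm : (Fin n → ℝ) →L[ℝ] E).le_opNorm (e x)
    simp only [ContinuousLinearEquiv.coe_coe, ContinuousLinearEquiv.symm_apply_apply] at h1
    refine h1.trans ?_
    gcongr
    linarith
  set c : ℝ := C * (|M| + 1) with hc
  have hcpos : 0 < c := by positivity
  obtain ⟨x, hx⟩ := Pool.Agent.H86.exists_zero_of_eq_id (E := E)
    (fun x => c⁻¹ • e.symm (R (c • e x))) (by fun_prop) (by
      intro x hx
      have h1 : 1 ≤ C * ‖e x‖ := hx.trans (hC x)
      have h2 : M ≤ ‖c • e x‖ := by
        rw [norm_smul, Real.norm_eq_abs, abs_of_pos hcpos, hc]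
        have h3 : C * (|M| + 1) * ‖e x‖ = (|M| + 1) * (C * ‖e x‖) := by ring
        rw [h3]
        have h4 : |M| + 1 ≤ (|M| + 1) * (C * ‖e x‖) := le_mul_of_one_le_right (by positivity) h1
        linarith [le_abs_self M]
      rw [hid _ h2, map_smul, ContinuousLinearEquiv.symm_apply_apply, smul_smul,
        inv_mul_cancel₀ hcpos.ne', one_smul])
  refine ⟨c • e x, ?_⟩
  have h1 : c • (c⁻¹ • e.symm (R (c • e x))) = 0 := by
    rw [show c⁻¹ • e.symm (R (c • e x)) = 0 from hx, smul_zero]
  rw [smul_smul, mul_inv_cancel₀ hcpos.ne', one_smul] at h1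
  simpa using h1

section

variable (m : ℕ)

/-- the hyperplane parametrisation `v ↦ (v, -∑ v)` -/
noncomputable def wv (v : Fin m → ℝ) : Fin (m + 1) → ℝ := Fin.snoc v (-∑ i, v i)

lemma wv_castSucc (v : Fin m → ℝ) (i : Fin m) : wv m v i.castSucc = v i := by
  simp [wv]

lemma wv_last (v : Fin m → ℝ) : wv m v (Fin.last m) = -∑ i, v i := by
  simp [wv]

lemma sum_wv (v : Fin m → ℝ) : ∑ i, wv m v i = 0 := by
  rw [Fin.sum_univ_castSucc]
  simp [wv_castSucc, wv_last]

/-- the unnormalised spiral map -/
noncomputable def pv (v : Fin m → ℝ) : Fin (m + 1) → ℝ :=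
  fun i => (1 - 2 * ‖v‖) + 2 * (1 - ‖v‖) * wv m v i

lemma sum_pv (v : Fin m → ℝ) : ∑ i, pv m v i = (m + 1) * (1 - 2 * ‖v‖) := by
  simp only [pv, Finset.sum_add_distrib, ← Finset.mul_sum, sum_wv]
  simp
  ring

lemma pv_ne (v : Fin m → ℝ) : 0 < ∑ i, |pv m v i| := by
  rcases (Finset.sum_nonneg (fun i _ => abs_nonneg (pv m v i)) :
    0 ≤ ∑ i, |pv m v i|).lt_or_eq with h | h
  · exact h
  · exfalso
    have h0 : ∀ i, pv m v i = 0 := by
      intro i
      have := (Finset.sum_eq_zero_iff_of_nonneg (fun i _ => abs_nonneg (pv m v i))).mp h.symm i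
        (Finset.mem_univ i)
      simpa using this
    have h1 := sum_pv m v
    rw [Finset.sum_eq_zero (fun i _ => h0 i)] at h1
    have h2 : ‖v‖ = 1 / 2 := by
      have : (0 : ℝ) < m + 1 := by positivity
      have h3 : (1 - 2 * ‖v‖) = 0 := by
        rcases mul_eq_zero.mp h1.symm with h | h
        · linarith
        · exact h
      linarith
    have h3 : v = 0 := by
      funext i
      have := h0 i.castSucc
      simp only [pv, wv_castSucc, h2] at this
      have : v i = 0 := by linarith
      simpa using this
    rw [h3, norm_zero] at h2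
    norm_num at h2

/-- the cross-polytope sphere -/
abbrev CP : Type := {z : Fin (m + 1) → ℝ // ∑ i, |z i| = 1}

/-- normalised -/
noncomputable def zv (v : Fin m → ℝ) : CP m :=
  ⟨fun i => pv m v i / ∑ j, |pv m v j|, by
    have h := pv_ne m v
    simp only [abs_div, ← Finset.sum_div]
    rw [abs_of_pos h, div_self h.ne']⟩

lemma continuous_wv : Continuous (wv m) := by
  refine continuous_pi fun i => ?_
  refine Fin.lastCases ?_ (fun j => ?_) i
  · simp only [wv_last]; fun_prop
  · simp only [wv_castSucc]; fun_prop

lemma continuous_pv : Continuous (pv m) := by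
  refine continuous_pi fun i => ?_
  have := (continuous_apply i).comp (continuous_wv m)
  simp only [pv]
  have h2 : Continuous fun v => wv m v i := this
  fun_prop

lemma continuous_zv : Continuous (zv m) := by
  refine Continuous.subtype_mk ?_ _
  refine continuous_pi fun i => ?_
  have h2 : ∀ i, Continuous fun v => pv m v i := fun i => (continuous_apply i).comp (continuous_pv m)
  refine Continuous.div (h2 i) (continuous_finsetSum _ fun j _ => (h2 j).abs) ?_
  intro v
  exact (pv_ne m v).ne'

/-- the base point -/
noncomputable def zbase : CP m := ⟨fun _ => -(1 / ((m : ℝ) + 1)), by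
  have : (0 : ℝ) < m + 1 := by positivity
  simp only [abs_neg, abs_div, abs_one, Finset.sum_const, Finset.card_univ, Fintype.card_fin,
    nsmul_eq_mul, abs_of_pos this]
  push_cast
  field_simp⟩

lemma zv_of_norm_one (v : Fin m → ℝ) (hv : ‖v‖ = 1) : zv m v = zbase m := by
  apply Subtype.ext
  funext i
  have hp : ∀ j, pv m v j = -1 := by
    intro j; simp only [pv, hv]; ring
  simp only [zv, zbase, hp]
  simp
  have : (m : ℝ) + 1 ≠ 0 := by positivity
  field_simp

end

/-- A space containing a sphere through a maximal simplex has a nontrivial homotopy group. -/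
theorem not_subsingleton_pi (m : ℕ) (X : Type) [TopologicalSpace X]
    (b : X → Fin (m + 1) → ℝ) (hb : Continuous b)
    (hmax : ∀ x, (∀ i, 0 < b x i) → ∑ i, b x i = 1)
    (ι : CP m → X) (hι : Continuous ι) (hbι : ∀ z i, b (ι z) i = max (z.1 i) 0) :
    ¬ Subsingleton (HomotopyGroup.Pi m X (ι (zbase m))) := by
  intro hsub
  set s : ℝ := 1 / (2 * ((m : ℝ) + 1)) with hs
  have hm1 : (0 : ℝ) < m + 1 := by positivity
  have hspos : 0 < s := by positivity
  have hs2 : ((m : ℝ) + 1) * s = 1 / 2 := by rw [hs]; field_simp
  -- the loop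
  let cv : (Fin m → I) → (Fin m → ℝ) := fun u i => 2 * (u i : ℝ) - 1
  have hcv : Continuous cv := by
    refine continuous_pi fun i => ?_
    have : Continuous fun u : Fin m → I => (u i : ℝ) := continuous_subtype_val.comp (continuous_apply i)
    simp only [cv]
    fun_prop
  have hcvn : ∀ u i, |cv u i| ≤ 1 := by
    intro u i
    have h1 := (u i).2.1
    have h2 := (u i).2.2
    simp only [cv, abs_le]
    constructor <;> linarith
  have hbd : ∀ u ∈ Cube.boundary (Fin m), ‖cv u‖ = 1 := by
    rintro u ⟨i, hi⟩
    apply le_antisymm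
    · rw [pi_norm_le_iff_of_nonneg zero_le_one]
      intro j
      exact hcvn u j
    · have h1 : |cv u i| = 1 := by
        rcases hi with hi | hi <;> simp only [cv, hi]
        · norm_num
        · norm_num
      rw [← h1]
      exact norm_le_pi_norm (cv u) i
  let γ : GenLoop (Fin m) X (ι (zbase m)) :=
    ⟨⟨fun u => ι (zv m (cv u)), hι.comp ((continuous_zv m).comp hcv)⟩, by
      intro u hu
      simp only [ContinuousMap.coe_mk]
      rw [zv_of_norm_one m _ (hbd u hu)]⟩
  have hhom : GenLoop.Homotopic γ GenLoop.const := by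
    have h1 : (Quotient.mk (GenLoop.Homotopic.setoid (Fin m) (ι (zbase m))) γ) =
        Quotient.mk (GenLoop.Homotopic.setoid (Fin m) (ι (zbase m))) GenLoop.const :=
      @Subsingleton.elim (HomotopyGroup.Pi m X (ι (zbase m))) hsub _ _
    exact Quotient.exact h1
  obtain ⟨H⟩ := hhom
  -- nowhere zero map
  have hF : ∀ x : X, ¬ (∀ i, b x i = s) := by
    intro x hx
    have h1 : ∑ i, b x i = 1 := hmax x (fun i => by rw [hx i]; exact hspos)
    simp only [hx, Finset.sum_const, Finset.card_univ, Fintype.card_fin, nsmul_eq_mul] at h1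
    push_cast at h1
    rw [hs2] at h1
    norm_num at h1
  let μ : (Fin (m + 1) → ℝ) → ℝ := fun y => (∑ i, y i) / (m + 1)
  have hμ : Continuous μ := by simp only [μ]; fun_prop
  have hμsum : ∀ y, ∑ i, y i = (m + 1) * μ y := by
    intro y; simp only [μ]; field_simp
  let t : (Fin (m + 1) → ℝ) → I := fun y => Set.projIcc 0 1 zero_le_one ((1 - μ y) / 2)
  have ht : Continuous t := continuous_projIcc.comp (by fun_prop)
  let u : (Fin (m + 1) → ℝ) → (Fin m → I) := fun y i =>
    Set.projIcc 0 1 zero_le_one ((1 + (y i.castSucc - μ y)) / 2)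
  have hu : Continuous u := continuous_pi fun i => continuous_projIcc.comp (by fun_prop)
  let G : (Fin (m + 1) → ℝ) → (Fin (m + 1) → ℝ) := fun y i => b (H (t y, u y)) i - s
  have hG : Continuous G := by
    refine continuous_pi fun i => ?_
    have h1 : Continuous fun y => H (t y, u y) := H.continuous.comp (ht.prodMk hu)
    exact ((continuous_apply i).comp (hb.comp h1)).sub continuous_const
  let θ : (Fin (m + 1) → ℝ) → ℝ := fun y => max 0 (min 1 (‖y‖ - (m + 2)))
  have hθ : Continuous θ := by simp only [θ]; fun_prop
  have hθ0 : ∀ y, 0 ≤ θ y := fun y => le_max_left _ _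
  have hθ1 : ∀ y, θ y ≤ 1 := fun y => max_le zero_le_one (min_le_left _ _)
  obtain ⟨y, hy⟩ := exists_zero_pi (m + 1) (fun y => (1 - θ y) • G y + θ y • y)
    (((continuous_const.sub hθ).smul hG).add (hθ.smul continuous_id)) (m + 3) (by
      intro y hy
      have : θ y = 1 := by
        simp only [θ]
        rw [min_eq_left (by linarith), max_eq_right zero_le_one]
      simp [this])
  have hy' : ∀ i, (1 - θ y) * G y i + θ y * y i = 0 := by
    intro i
    have := congrFun hy i
    simpa using this
  have hGi : ∀ i, G y i = b (H (t y, u y)) i - s := fun i => rfl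
  -- θ is positive
  have hθpos : 0 < θ y := by
    rcases (hθ0 y).lt_or_eq with h | h
    · exact h
    · exfalso
      rw [← h] at hy'
      apply hF (H (t y, u y))
      intro i
      have := hy' i
      simp only [G] at this
      linarith
  have hnorm : (m : ℝ) + 2 < ‖y‖ := by
    by_contra hle
    push Not at hle
    have : θ y = 0 := by
      simp only [θ]
      rw [max_eq_left]
      exact (min_le_right _ _).trans (by linarith)
    linarith
  by_cases hcase : (∃ i : Fin m, 1 ≤ |y i.castSucc - μ y|) ∨ μ y ≤ -1
  · -- side and top faces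
    have hH : H (t y, u y) = ι (zbase m) := by
      rcases hcase with ⟨i, hi⟩ | hμ1
      · have hub : u y ∈ Cube.boundary (Fin m) := by
          refine ⟨i, ?_⟩
          rcases le_abs.mp hi with h | h
          · right
            simp only [u]
            exact Set.projIcc_of_right_le zero_le_one (by linarith)
          · left
            simp only [u]
            exact Set.projIcc_of_le_left zero_le_one (by linarith)
        have h1 := H.eq_fst (t y) hub
        rw [h1]
        exact γ.2 (u y) hub
      · have ht1 : t y = 1 := by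
          simp only [t]
          exact Set.projIcc_of_right_le zero_le_one (by linarith)
        rw [ht1]
        exact H.apply_one (u y)
    have hGs : ∀ i, G y i = -s := by
      intro i
      rw [hGi, hH, hbι]
      have h1 : (zbase m).1 i = -(1 / ((m : ℝ) + 1)) := rfl
      rw [h1, max_eq_right]
      · ring
      · have : 0 < 1 / ((m : ℝ) + 1) := by positivity
        linarith
    have hyi : ∀ i, y i = (1 - θ y) * s / θ y := by
      intro i
      have := hy' i
      rw [hGs] at this
      rw [eq_div_iff hθpos.ne']
      linarith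
    have hμy : μ y = (1 - θ y) * s / θ y := by
      have h1 := hμsum y
      rw [Finset.sum_congr rfl (fun i _ => hyi i), Finset.sum_const, Finset.card_univ,
        Fintype.card_fin, nsmul_eq_mul] at h1
      push_cast at h1
      exact (mul_left_cancel₀ hm1.ne' h1).symm
    have hμ0 : 0 ≤ μ y := by
      rw [hμy]
      have := hθ1 y
      have : 0 ≤ 1 - θ y := by linarith
      positivity
    rcases hcase with ⟨i, hi⟩ | hμ1
    · rw [hyi i.castSucc, hμy] at hi
      simp at hi
      linarith
    · linarith
  · push Not at hcase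
    obtain ⟨hlt, hμ1⟩ := hcase
    have hsumw : ∑ i, (y i - μ y) = 0 := by
      rw [Finset.sum_sub_distrib, hμsum]
      simp
    have hlast : y (Fin.last m) - μ y = -∑ i : Fin m, (y i.castSucc - μ y) := by
      rw [Fin.sum_univ_castSucc] at hsumw
      linarith
    by_cases hμ2 : μ y ≤ 1
    · -- `y` is in the box: contradiction with the norm
      exfalso
      have hμabs : |μ y| ≤ 1 := abs_le.mpr ⟨hμ1.le, hμ2⟩
      have : ‖y‖ ≤ (m : ℝ) + 2 := by
        rw [pi_norm_le_iff_of_nonneg (by positivity)]
        intro i
        rw [Real.norm_eq_abs]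
        refine Fin.lastCases ?_ (fun j => ?_) i
        · have h1 : |y (Fin.last m) - μ y| ≤ m := by
            rw [hlast, abs_neg]
            calc |∑ i : Fin m, (y i.castSucc - μ y)| ≤ ∑ i : Fin m, |y i.castSucc - μ y| :=
                  Finset.abs_sum_le_sum_abs _ _
              _ ≤ ∑ i : Fin m, (1 : ℝ) := Finset.sum_le_sum (fun i _ => (hlt i).le)
              _ = m := by simp
          have h2 : |y (Fin.last m)| ≤ |y (Fin.last m) - μ y| + |μ y| := by
            have := abs_add_le (y (Fin.last m) - μ y) (μ y)
            rwa [sub_add_cancel] at this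
          linarith
        · have h2 : |y j.castSucc| ≤ |y j.castSucc - μ y| + |μ y| := by
            have := abs_add_le (y j.castSucc - μ y) (μ y)
            rwa [sub_add_cancel] at this
          have := hlt j
          have : (0 : ℝ) ≤ m := by positivity
          linarith
      linarith
    · push Not at hμ2
      have ht0 : t y = 0 := by
        simp only [t]
        exact Set.projIcc_of_le_left zero_le_one (by linarith)
      have hcvu : cv (u y) = fun i => y i.castSucc - μ y := by
        funext i
        have h1 := abs_lt.mp (hlt i)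
        have h2 : ((u y i : I) : ℝ) = (1 + (y i.castSucc - μ y)) / 2 := by
          simp only [u]
          rw [Set.projIcc_of_mem zero_le_one (x := (1 + (y i.castSucc - μ y)) / 2)
            ⟨by linarith, by linarith⟩]
        simp only [cv, h2]
        ring
      have hH : H (t y, u y) = ι (zv m (cv (u y))) := by
        rw [ht0]
        exact H.apply_zero (u y)
      set v := cv (u y) with hv
      have hw : ∀ i, wv m v i = y i - μ y := by
        intro i
        refine Fin.lastCases ?_ (fun j => ?_) i
        · rw [wv_last, hlast, hcvu]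
        · rw [wv_castSucc, hcvu]
      have hρ1 : ‖v‖ ≤ 1 := by
        rw [pi_norm_le_iff_of_nonneg zero_le_one]
        intro j
        exact hcvn (u y) j
      have hP := pv_ne m v
      set P := ∑ i, |pv m v i| with hPdef
      have hGz : ∀ i, G y i = max (pv m v i / P) 0 - s := by
        intro i
        rw [hGi, hH, hbι]
        rfl
      have hsum1 : 0 ≤ ∑ i, G y i * (y i - μ y) := by
        have h1 : ∀ i, max ((1 - 2 * ‖v‖) / P) 0 * (y i - μ y) ≤
            max (pv m v i / P) 0 * (y i - μ y) := by
          intro i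
          rcases le_total 0 (y i - μ y) with h | h
          · apply mul_le_mul_of_nonneg_right _ h
            apply max_le_max_right
            apply div_le_div_of_nonneg_right _ hP.le
            simp only [pv, hw i]
            nlinarith
          · apply mul_le_mul_of_nonpos_right _ h
            apply max_le_max_right
            apply div_le_div_of_nonneg_right _ hP.le
            simp only [pv, hw i]
            nlinarith
        have h2 : ∑ i, G y i * (y i - μ y) = ∑ i, max (pv m v i / P) 0 * (y i - μ y) := by
          have : ∀ i, G y i * (y i - μ y) = max (pv m v i / P) 0 * (y i - μ y)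
              - s * (y i - μ y) := by
            intro i; rw [hGz]; ring
          rw [Finset.sum_congr rfl (fun i _ => this i), Finset.sum_sub_distrib, ← Finset.mul_sum,
            hsumw, mul_zero, sub_zero]
        rw [h2]
        calc (0 : ℝ) = ∑ i, max ((1 - 2 * ‖v‖) / P) 0 * (y i - μ y) := by
              rw [← Finset.mul_sum, hsumw, mul_zero]
          _ ≤ _ := Finset.sum_le_sum (fun i _ => h1 i)
      have hsum2 : (1 - θ y) * ∑ i, G y i * (y i - μ y) + θ y * ∑ i, (y i - μ y) ^ 2 = 0 := by
        have h1 : ∀ i, ((1 - θ y) * G y i + θ y * y i) * (y i - μ y) = 0 := by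
          intro i; rw [hy' i, zero_mul]
        have h2 : ∑ i, ((1 - θ y) * G y i + θ y * y i) * (y i - μ y) = 0 :=
          Finset.sum_eq_zero (fun i _ => h1 i)
        have h3 : ∀ i, ((1 - θ y) * G y i + θ y * y i) * (y i - μ y) =
            (1 - θ y) * (G y i * (y i - μ y)) + (θ y * (y i - μ y) ^ 2 +
              (θ y * μ y) * (y i - μ y)) := by
          intro i; ring
        rw [Finset.sum_congr rfl (fun i _ => h3 i), Finset.sum_add_distrib,
          Finset.sum_add_distrib, ← Finset.mul_sum, ← Finset.mul_sum, ← Finset.mul_sum, hsumw,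
          mul_zero, add_zero] at h2
        exact h2
      have hsq : ∑ i, (y i - μ y) ^ 2 = 0 := by
        have h1 : 0 ≤ ∑ i, (y i - μ y) ^ 2 := Finset.sum_nonneg (fun i _ => sq_nonneg _)
        have h2 : 0 ≤ (1 - θ y) * ∑ i, G y i * (y i - μ y) :=
          mul_nonneg (by linarith [hθ1 y]) hsum1
        have h3 : θ y * ∑ i, (y i - μ y) ^ 2 ≤ 0 := by linarith
        by_contra hne
        have h4 : 0 < ∑ i, (y i - μ y) ^ 2 := lt_of_le_of_ne h1 (Ne.symm hne)
        have := mul_pos hθpos h4
        linarith
      have hw0 : ∀ i, y i - μ y = 0 := by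
        intro i
        have := (Finset.sum_eq_zero_iff_of_nonneg (fun i _ => sq_nonneg (y i - μ y))).mp hsq i
          (Finset.mem_univ i)
        exact pow_eq_zero_iff (two_ne_zero) |>.mp this
      have hv0 : v = 0 := by
        rw [hcvu]
        funext i
        exact hw0 i.castSucc
      have hp1 : ∀ i, pv m v i = 1 := by
        intro i
        simp only [pv, hw i, hw0 i]
        rw [hv0, norm_zero]
        ring
      have hP1 : P = m + 1 := by
        rw [hPdef]
        simp [hp1]
      have h0 := hy' 0
      rw [hGz, hp1, hP1, max_eq_left (by positivity)] at h0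
      have hy0 : y 0 = μ y := by linarith [hw0 0]
      have hs3 : 1 / ((m : ℝ) + 1) - s = s := by rw [hs]; field_simp; ring
      rw [hs3, hy0] at h0
      have h5 : 0 < θ y * μ y := mul_pos hθpos (by linarith)
      have h6 : 0 ≤ (1 - θ y) * s := mul_nonneg (by linarith [hθ1 y]) hspos.le
      linarith

end Pool.Agent.H56
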